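import Pool.Agent.N206.CG.Stm2

set_option autoImplicit false

/-!
Project CG (helper206): every choice of sections and root occurs in the model group.
-/

namespace Pool.Agent.N7.CG.B3

open Classical
open Pool.Agent.N206.CG
open scoped commutatorElement

variable {L : Loc}

theorem pinv1 {E : Type} (g : Equiv.Perm E) (y : E) : g (g⁻¹ y) = y := by simp

theorem pinv2 {E : Type} (g : Equiv.Perm E) (y : E) : g⁻¹ (g y) = y := by simp

/-- `Am` as a subgroup -/
def AmS (L : Loc) (m : ℕ) : Subgroup (Equiv.Perm (Om L)) where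
  carrier := Am L m
  one_mem' := fun _ _ _ _ => rfl
  mul_mem' := by
    intro a b ha hb j hj w y
    rw [Equiv.Perm.mul_apply, hb j hj, ha j hj]
    rfl
  inv_mem' := by
    intro a ha j hj w y
    rw [Equiv.Perm.inv_eq_iff_eq, ha j hj]
    simp

theorem mem_AmS {m : ℕ} {a : Equiv.Perm (Om L)} : a ∈ AmS L m ↔ a ∈ Am L m := Iff.rfl

theorem am_coord {n : ℕ} {a : Equiv.Perm (Om L)} (ha : a ∈ AmS L (n + 1)) (w : Om L) :
    a w n = w n := by
  have h := ha n (Nat.lt_succ_self n) w (w n)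
  rw [Function.update_eq_self] at h
  rw [h, Function.update_self]

theorem am_upd {n : ℕ} {a : Equiv.Perm (Om L)} (ha : a ∈ AmS L (n + 1)) (w : Om L) (y : L.E n) :
    a (Function.update w n y) = Function.update (a w) n y := ha n (Nat.lt_succ_self n) w y

/-- `a` has root `1` and sections `F` -/
def Sc (n : ℕ) (a : Equiv.Perm (Om L)) (F : L.E n → Equiv.Perm (Om L)) : Prop :=
  (∀ x, F x ∈ AmS L (n + 1)) ∧ ∀ w, a w = F (w n) w

theorem Sc.one (n : ℕ) : Sc n (1 : Equiv.Perm (Om L)) (fun _ => 1) :=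
  ⟨fun _ => one_mem _, fun _ => rfl⟩

theorem Sc.mul {n : ℕ} {a b : Equiv.Perm (Om L)} {F G : L.E n → Equiv.Perm (Om L)}
    (ha : Sc n a F) (hb : Sc n b G) : Sc n (a * b) (fun x => F x * G x) := by
  refine ⟨fun x => mul_mem (ha.1 x) (hb.1 x), fun w => ?_⟩
  rw [Equiv.Perm.mul_apply, hb.2, ha.2, am_coord (hb.1 (w n)) w]
  rfl

theorem Sc.inv {n : ℕ} {a : Equiv.Perm (Om L)} {F : L.E n → Equiv.Perm (Om L)}
    (ha : Sc n a F) : Sc n a⁻¹ (fun x => (F x)⁻¹) := by
  refine ⟨fun x => inv_mem (ha.1 x), fun w => ?_⟩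
  rw [Equiv.Perm.inv_eq_iff_eq, ha.2, am_coord (inv_mem (ha.1 (w n))) w]
  simp

theorem Sc.congr {n : ℕ} {a : Equiv.Perm (Om L)} {F G : L.E n → Equiv.Perm (Om L)}
    (ha : Sc n a F) (h : ∀ x, F x = G x) : Sc n a G := by
  have : F = G := funext h
  rwa [← this]

theorem Sc.conj {n : ℕ} {a p : Equiv.Perm (Om L)} {F : L.E n → Equiv.Perm (Om L)}
    {g : Equiv.Perm (L.E n)} (ha : Sc n a F) (hp : ∀ w, p w = Function.update w n (g (w n))) :
    Sc n (p * a * p⁻¹) (fun y => F (g⁻¹ y)) := by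
  refine ⟨fun x => ha.1 _, fun w => ?_⟩
  have hp' : p⁻¹ w = Function.update w n (g⁻¹ (w n)) := by
    rw [Equiv.Perm.inv_eq_iff_eq, hp]
    simp
  rw [Equiv.Perm.mul_apply, Equiv.Perm.mul_apply, hp', ha.2, Function.update_self,
    am_upd (ha.1 _), hp]
  simp only [Function.update_self, Function.update_idem]
  have h1 := am_coord (ha.1 (g⁻¹ (w n))) w
  have h2 : g (g⁻¹ (w n)) = (F (g⁻¹ (w n))) w n := by rw [h1]; simp
  rw [h2, Function.update_eq_self]

/-- commutator of two elements with only one common letter -/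
theorem Sc.comm {n : ℕ} {a b : Equiv.Perm (Om L)} {F G : L.E n → Equiv.Perm (Om L)}
    (ha : Sc n a F) (hb : Sc n b G) (x : L.E n) (h : ∀ y, y ≠ x → F y = 1 ∨ G y = 1) :
    Sc n ⁅a, b⁆ (fun y => if y = x then ⁅F x, G x⁆ else 1) := by
  have h1 := ((ha.mul hb).mul ha.inv).mul hb.inv
  refine Sc.congr (G := fun y => if y = x then ⁅F x, G x⁆ else 1) h1 fun y => ?_
  by_cases hy : y = x
  · subst hy
    simp [commutatorElement_def]
  · rw [if_neg hy]
    rcases h y hy with h2 | h2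
    · simp [h2]
    · simp [h2]

/-! ### the spinal maps -/

theorem psf_eq1 (n : ℕ) (b : L.B) (w : Om L) (h : ∀ j, n ≤ j → w j = L.z j) :
    psf L n b w = w := by
  unfold psf
  rw [dif_neg]
  rintro ⟨j, hj, hj'⟩
  exact hj' (h j hj)

theorem psf_eq2 (n : ℕ) (b : L.B) (w : Om L) (j : ℕ) (hj : n ≤ j)
    (h : ∀ i, n ≤ i → i < j → w i = L.z i) (hw : w j ≠ L.z j) :
    psf L n b w = if w j ∈ L.X j then
      Function.update w (j + 1) (L.rho (j + 1) b (w (j + 1))) else w := by
  have hex : ∃ j, n ≤ j ∧ w j ≠ L.z j := ⟨j, hj, hw⟩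
  have hf : Nat.find hex = j := by
    rw [Nat.find_eq_iff]
    refine ⟨⟨hj, hw⟩, fun i hi h' => h'.2 (h i h'.1 hi)⟩
  unfold psf
  rw [dif_pos hex]
  rw [hf]

theorem psf_z (n : ℕ) (b : L.B) (w : Om L) (h : w n = L.z n) :
    psf L n b w = psf L (n + 1) b w := by
  by_cases h1 : ∃ j, n + 1 ≤ j ∧ w j ≠ L.z j
  · have hs := Nat.find_spec h1
    have hm : ∀ i, n + 1 ≤ i → i < Nat.find h1 → w i = L.z i := by
      intro i hi hi'
      by_contra hc
      exact Nat.find_min h1 hi' ⟨hi, hc⟩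
    rw [psf_eq2 (n + 1) b w (Nat.find h1) hs.1 hm hs.2,
      psf_eq2 n b w (Nat.find h1) (by omega) (fun i hi hi' => ?_) hs.2]
    rcases hi.eq_or_lt with h2 | h2
    · rw [← h2]; exact h
    · exact hm i h2 hi'
  · push Not at h1
    rw [psf_eq1 (n + 1) b w h1, psf_eq1 n b w fun j hj => ?_]
    rcases hj.eq_or_lt with h2 | h2
    · rw [← h2]; exact h
    · exact h1 j h2

theorem psf_X (n : ℕ) (b : L.B) (w : Om L) (h : w n ∈ L.X n) :
    psf L n b w = Function.update w (n + 1) (L.rho (n + 1) b (w (n + 1))) := by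
  rw [psf_eq2 n b w n le_rfl (fun i hi hi' => absurd hi' (by omega)), if_pos h]
  intro h'
  rw [h'] at h
  exact L.z_not n h

theorem psf_o (n : ℕ) (b : L.B) (w : Om L) (h : w n ≠ L.z n) (h' : w n ∉ L.X n) :
    psf L n b w = w := by
  rw [psf_eq2 n b w n le_rfl (fun i hi hi' => absurd hi' (by omega)) h, if_neg h']

end Pool.Agent.N7.CG.B3

namespace Pool.Agent.N7.CG

open Classical
open Pool.Agent.N206.CG
open B3
open scoped commutatorElement

theorem t_B3 (L : Loc) (h1 : S_B1 L) (h2 : S_B2 L) : S_B3 L := by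
  obtain ⟨h1a, h1b⟩ := h1
  choose pt hpt using h1a
  choose ps hps using h1b
  have hptG : ∀ n r, pt n r ∈ Gn L n := fun n r =>
    Subgroup.subset_closure (Or.inl ⟨r, r.2, hpt n r⟩)
  have hpsG : ∀ n b, ps n b ∈ Gn L n := fun n b => Subgroup.subset_closure (Or.inr ⟨b, hps n b⟩)
  have hA : ∀ n, Gn L n ≤ AmS L n := fun n g hg => h2.1 n g hg
  intro n
  -- `rho` with values in `P (n + 1)`
  have hrP : ∀ b, L.rho (n + 1) b ∈ L.P (n + 1) := fun b => by
    rw [← L.rho_range (n + 1)]; exact ⟨b, rfl⟩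
  let rp : L.B →* L.P (n + 1) := (L.rho (n + 1)).codRestrict (L.P (n + 1)) hrP
  -- sections of the spinal elements
  let Fs : L.B → L.E n → Equiv.Perm (Om L) := fun b y =>
    if y = L.z n then ps (n + 1) b else if y ∈ L.X n then pt (n + 1) (rp b) else 1
  have hFz : ∀ b, Fs b (L.z n) = ps (n + 1) b := fun b => if_pos rfl
  have hFX : ∀ b y, y ∈ L.X n → Fs b y = pt (n + 1) (rp b) := by
    intro b y hy
    have hz : y ≠ L.z n := by
      rintro rfl
      exact L.z_not n hy
    show (if y = L.z n then _ else _) = _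
    rw [if_neg hz, if_pos hy]
  have hFo : ∀ b y, y ≠ L.z n → y ∉ L.X n → Fs b y = 1 := by
    intro b y hz hy
    show (if y = L.z n then _ else _) = _
    rw [if_neg hz, if_neg hy]
  have hFs : ∀ b, Sc n (ps n b) (Fs b) := by
    intro b
    refine ⟨fun x => ?_, fun w => ?_⟩
    · by_cases hz : x = L.z n
      · rw [hz, hFz]; exact hA _ (hpsG _ _)
      · by_cases hy : x ∈ L.X n
        · rw [hFX b x hy]; exact hA _ (hptG _ _)
        · rw [hFo b x hz hy]; exact one_mem _
    · rw [hps]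
      by_cases hz : w n = L.z n
      · rw [psf_z n b w hz, hz, hFz, hps]
      · by_cases hy : w n ∈ L.X n
        · rw [psf_X n b w hy, hFX b _ hy, hpt]
          rfl
        · rw [psf_o n b w hz hy, hFo b _ hz hy]
          rfl
  -- the elements which occur as sections at `x`
  let T : L.E n → Subgroup (Equiv.Perm (Om L)) := fun x =>
    { carrier := {u | ∃ g ∈ Gn L n, Sc n g (fun y => if y = x then u else 1)}
      one_mem' := ⟨1, one_mem _, (Sc.one n).congr fun y => by simp⟩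
      mul_mem' := by
        rintro a b ⟨g, hg, hg'⟩ ⟨g', hg1, hg1'⟩
        refine ⟨g * g', mul_mem hg hg1, (hg'.mul hg1').congr fun y => ?_⟩
        by_cases hy : y = x <;> simp [hy]
      inv_mem' := by
        rintro a ⟨g, hg, hg'⟩
        refine ⟨g⁻¹, inv_mem hg, hg'.inv.congr fun y => ?_⟩
        by_cases hy : y = x <;> simp [hy] }
  have hT : ∀ x u, u ∈ T x ↔ ∃ g ∈ Gn L n, Sc n g (fun y => if y = x then u else 1) :=
    fun x u => Iff.rfl
  -- moving the letter
  have hmove : ∀ x y u, u ∈ T x → u ∈ T y := by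
    intro x y u hu
    obtain ⟨g, hg, hgx⟩ := L.trans n x y
    obtain ⟨a, ha, ha'⟩ := (hT x u).1 hu
    refine (hT y u).2 ⟨pt n ⟨g, hg⟩ * a * (pt n ⟨g, hg⟩)⁻¹,
      mul_mem (mul_mem (hptG _ _) ha) (inv_mem (hptG _ _)), ?_⟩
    refine (ha'.conj (g := g) (hpt n ⟨g, hg⟩)).congr fun t => ?_
    have h3 : (g⁻¹ t = x) ↔ (t = y) := by
      rw [Equiv.Perm.inv_eq_iff_eq, hgx]
    simp only [h3]
  have hconj : ∀ (g : Equiv.Perm (L.E n)) (hg : g ∈ L.P n) (b : L.B),
      pt n ⟨g, hg⟩ * ps n b * (pt n ⟨g, hg⟩)⁻¹ ∈ Gn L n ∧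
      Sc n (pt n ⟨g, hg⟩ * ps n b * (pt n ⟨g, hg⟩)⁻¹) (fun y => Fs b (g⁻¹ y)) := fun g hg b =>
    ⟨mul_mem (mul_mem (hptG _ _) (hpsG _ _)) (inv_mem (hptG _ _)),
      (hFs b).conj (hpt n ⟨g, hg⟩)⟩
  have hcomG : ∀ a b : Equiv.Perm (Om L), a ∈ Gn L n → b ∈ Gn L n → ⁅a, b⁆ ∈ Gn L n := by
    intro a b ha hb
    rw [commutatorElement_def]
    exact mul_mem (mul_mem (mul_mem ha hb) (inv_mem ha)) (inv_mem hb)
  -- (i)
  have hi : ∀ b, ps (n + 1) b ∈ T (L.z n) := by
    obtain ⟨g, hg, hgz, hgX⟩ := L.dis n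
    have hle : commutator L.B ≤ (T (L.z n)).comap (ps (n + 1)) := by
      rw [commutator_def, Subgroup.commutator_le]
      intro b _ c _
      rw [Subgroup.mem_comap, hT]
      obtain ⟨hc1, hc2⟩ := hconj g hg c
      refine ⟨_, hcomG _ _ (hpsG n b) hc1, ((hFs b).comm hc2 (L.z n) fun y hy => ?_).congr
        fun y => ?_⟩
      · by_cases hyX : y ∈ L.X n
        · right
          apply hFo
          · intro h3
            rw [Equiv.Perm.inv_eq_iff_eq, hgz] at h3
            exact hy h3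
          · intro h3
            have := hgX _ h3
            rw [pinv1] at this
            exact this hyX
        · left
          exact hFo b y hy hyX
      · have h3 : g⁻¹ (L.z n) = L.z n := by rw [Equiv.Perm.inv_eq_iff_eq, hgz]
        simp only [h3, hFz, map_commutatorElement]
    intro b
    have h3 : b ∈ commutator L.B := by rw [L.B_perf]; exact Subgroup.mem_top _
    exact hle h3
  -- (ii)
  have hii : ∀ r, pt (n + 1) r ∈ T (L.z n) := by
    obtain ⟨h, hh, x0, hx0, hhx0, hone⟩ := L.one n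
    have hle : commutator L.B ≤ (T (h x0)).comap ((pt (n + 1)).comp rp) := by
      rw [commutator_def, Subgroup.commutator_le]
      intro b _ c _
      rw [Subgroup.mem_comap, hT]
      obtain ⟨hc1, hc2⟩ := hconj h hh c
      refine ⟨_, hcomG _ _ (hpsG n b) hc1, ((hFs b).comm hc2 (h x0) fun y hy => ?_).congr
        fun y => ?_⟩
      · by_contra hcon
        push Not at hcon
        obtain ⟨c1, c2⟩ := hcon
        have d1 : y = L.z n ∨ y ∈ L.X n := by
          by_contra hd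
          push Not at hd
          exact c1 (hFo b y hd.1 hd.2)
        have d2 : h⁻¹ y = L.z n ∨ h⁻¹ y ∈ L.X n := by
          by_contra hd
          push Not at hd
          exact c2 (hFo c _ hd.1 hd.2)
        have d3 := hone (h⁻¹ y) d2 (by rw [pinv1]; exact d1)
        rw [Equiv.Perm.inv_eq_iff_eq] at d3
        exact hy d3
      · have h3 : h⁻¹ (h x0) = x0 := by simp
        simp only [h3, hFX b _ hhx0, hFX c _ hx0, map_commutatorElement, MonoidHom.comp_apply]
    intro r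
    have hr : (r : Equiv.Perm (L.E (n + 1))) ∈ (L.rho (n + 1)).range := by
      rw [L.rho_range]; exact r.2
    obtain ⟨b, hb⟩ := hr
    have hb' : rp b = r := Subtype.ext hb
    have h3 : b ∈ commutator L.B := by rw [L.B_perf]; exact Subgroup.mem_top _
    have h4 := hle h3
    rw [Subgroup.mem_comap, MonoidHom.comp_apply, hb'] at h4
    exact hmove _ _ _ h4
  -- (iii)
  have hiii : ∀ x, Gn L (n + 1) ≤ T x := by
    intro x
    unfold Gn
    rw [Subgroup.closure_le]
    rintro u (⟨r, hr, hu⟩ | ⟨b, hu⟩)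
    · have : u = pt (n + 1) ⟨r, hr⟩ := Equiv.ext fun w => by rw [hu, hpt]
      rw [this]
      exact hmove _ _ _ (hii _)
    · have : u = ps (n + 1) b := Equiv.ext fun w => by rw [hu, hps]
      rw [this]
      exact hmove _ _ _ (hi _)
  -- (iv)
  intro r hr f hf
  have : Fintype (L.E n) := Fintype.ofFinite _
  have key : ∀ F : L.E n → Equiv.Perm (Om L), (∀ x, F x ∈ Gn L (n + 1)) → ∀ s : Finset (L.E n),
      ∃ A ∈ Gn L n, Sc n A (fun y => if y ∈ s then F y else 1) := by
    intro F hF s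
    induction s using Finset.induction_on with
    | empty => exact ⟨1, one_mem _, (Sc.one n).congr fun y => by simp⟩
    | insert a s ha ih =>
      obtain ⟨A, hA1, hA2⟩ := ih
      obtain ⟨g, hg1, hg2⟩ := (hT a (F a)).1 (hiii a (hF a))
      refine ⟨g * A, mul_mem hg1 hA1, (hg2.mul hA2).congr fun y => ?_⟩
      by_cases hy : y = a
      · subst hy
        simp [ha]
      · simp [hy]
  obtain ⟨A, hA1, hA2⟩ := key (fun y => f (r⁻¹ y)) (fun y => hf _) Finset.univ
  refine ⟨A * pt n ⟨r, hr⟩, mul_mem hA1 (hptG _ _), fun w => ?_⟩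
  rw [Equiv.Perm.mul_apply, hA2.2, hpt]
  simp only [Function.update_self, Finset.mem_univ, if_true, pinv2]
  exact am_upd (hA _ (hf (w n))) w _

end Pool.Agent.N7.CG
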